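import Pool.Agent.Q33.Fence.Perm

/-!
# Antichain toggles on fences: all Coxeter elements have the same mesic statistics

For two Coxeter elements `w`, `w'` of the antichain toggle group of a fence there is a
permutation `ψ` of the antichains with `w ψ = ψ w'` which changes each indicator function by a
coboundary; hence the orbits correspond, with equal sizes and equal sums of all indicators.
-/

namespace Pool.Agent.Results.MP_caa0a9_co.CoxeterIndependence

open Finset Pool.Agent.Q33.Fence

set_option linter.unusedSectionVars false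

/-- The elements `x 0, x 1, …, x (n-1)` form a fence with directions `up`: the cover relations are
exactly `x i ⋖ x (i+1)` if `up i` holds, and `x (i+1) ⋖ x i` otherwise. -/
def IsFence {F : Type*} [PartialOrder F] {n : ℕ} (x : Fin n ≃ F) (up : ℕ → Prop) : Prop :=
  ∀ i j : Fin n, x i ⋖ x j ↔ (j.val = i.val + 1 ∧ up i.val) ∨ (i.val = j.val + 1 ∧ ¬ up j.val)

/-- The antichains of a poset. -/
abbrev AC (F : Type*) [PartialOrder F] := St (fun u v : F => u < v)

open Classical in
noncomputable instance {F : Type*} [PartialOrder F] [Fintype F] : Fintype (AC F) :=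
  inferInstanceAs (Fintype {A : Finset F // ∀ u ∈ A, ∀ v ∈ A, ¬ u < v})

open Classical in
/-- The orbit of `A` under the group generated by `w`. -/
noncomputable def orb {F : Type*} [PartialOrder F] [Fintype F] (w : Equiv.Perm (AC F)) (A : AC F) :
    Finset (AC F) := univ.filter (fun B => ∃ i : ℤ, (w ^ i) A = B)

/-- The statistic `∑ lam y χ_y`. -/
noncomputable def stat {F : Type*} [PartialOrder F] (lam : F → ℝ) (A : AC F) : ℝ := ∑ y ∈ A.1, lam y

/-- `f` is `c`-mesic under the group generated by `w`. -/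
def Mesic {F : Type*} [PartialOrder F] [Fintype F] (w : Equiv.Perm (AC F)) (f : AC F → ℝ) (c : ℝ) :
    Prop := ∀ A, (∑ B ∈ orb w A, f B) / ((orb w A).card : ℝ) = c

/-- `f` is orbomesic under the group generated by `w`. -/
def Orbomesic {F : Type*} [PartialOrder F] [Fintype F] (w : Equiv.Perm (AC F)) (f : AC F → ℝ) :
    Prop := ∀ A A', (orb w A).card = (orb w A').card → ∑ B ∈ orb w A, f B = ∑ B ∈ orb w A', f B

section orbits

variable {F : Type*} [PartialOrder F] [Fintype F] [DecidableEq F]

lemma mem_orb (w : Equiv.Perm (AC F)) (A B : AC F) : B ∈ orb w A ↔ w.SameCycle A B := by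
  classical
  simp only [orb, Finset.mem_filter, Finset.mem_univ, true_and]
  rfl

lemma orb_map {w w' ψ : Equiv.Perm (AC F)} (h : w * ψ = ψ * w') (A : AC F) :
    orb w (ψ A) = (orb w' A).map ψ.toEmbedding := by
  have hw : w = ψ * w' * ψ⁻¹ := by rw [← h]; simp
  ext B
  rw [mem_orb, Finset.mem_map_equiv, mem_orb, hw, Equiv.Perm.sameCycle_conj]
  simp

lemma orb_coboundary (w : Equiv.Perm (AC F)) (A : AC F) (k : AC F → ℝ) :
    ∑ B ∈ orb w A, (k (w B) - k B) = 0 := by
  rw [Finset.sum_sub_distrib, sub_eq_zero]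
  refine Finset.sum_equiv w ?_ (fun _ _ => rfl)
  intro B
  rw [mem_orb, mem_orb, Equiv.Perm.sameCycle_apply_right]

lemma stat_eq (lam : F → ℝ) (A : AC F) : stat lam A = ∑ y, lam y * chi y A := by
  unfold stat chi
  rw [← Finset.sum_filter_add_sum_filter_not univ (fun y => y ∈ A.1)]
  have h1 : ∑ y ∈ univ.filter (fun y => ¬ y ∈ A.1), lam y * (if y ∈ A.1 then (1 : ℝ) else 0) = 0 := by
    apply Finset.sum_eq_zero
    intro y hy
    rw [Finset.mem_filter] at hy
    rw [if_neg hy.2, mul_zero]
  have h2 : univ.filter (fun y => y ∈ A.1) = A.1 := by ext y; simp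
  rw [h1, add_zero, h2]
  apply Finset.sum_congr rfl
  intro y hy
  rw [if_pos hy, mul_one]

lemma orb_sum {w w' : Equiv.Perm (AC F)} (h : Eqv w w') :
    ∃ ψ : Equiv.Perm (AC F), ∀ A, (orb w (ψ A)).card = (orb w' A).card ∧
      ∀ lam : F → ℝ, ∑ B ∈ orb w (ψ A), stat lam B = ∑ B ∈ orb w' A, stat lam B := by
  obtain ⟨ψ, h1, h2⟩ := h
  choose k hk using h2
  refine ⟨ψ, fun A => ⟨?_, fun lam => ?_⟩⟩
  · rw [orb_map h1, Finset.card_map]
  · rw [orb_map h1, Finset.sum_map, ← sub_eq_zero, ← Finset.sum_sub_distrib]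
    have e : ∀ B : AC F, stat lam (ψ.toEmbedding B) - stat lam B =
        ∑ y, lam y * (k y (w' B) - k y B) := by
      intro B
      rw [stat_eq, stat_eq, ← Finset.sum_sub_distrib]
      apply Finset.sum_congr rfl
      intro y _
      rw [← hk y B]
      show lam y * chi y (ψ B) - lam y * chi y B = _
      ring
    rw [Finset.sum_congr rfl (fun B _ => e B), Finset.sum_comm]
    apply Finset.sum_eq_zero
    intro y _
    rw [← Finset.mul_sum, orb_coboundary, mul_zero]

lemma transfer {w w' : Equiv.Perm (AC F)} (h : Eqv w w') (lam : F → ℝ) :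
    (∀ c, Mesic w (stat lam) c → Mesic w' (stat lam) c) ∧
      (Orbomesic w (stat lam) → Orbomesic w' (stat lam)) := by
  obtain ⟨ψ, hψ⟩ := orb_sum h
  refine ⟨fun c hm A => ?_, fun ho A A' hc => ?_⟩
  · have := hm (ψ A)
    rw [(hψ A).1, (hψ A).2] at this
    exact this
  · have := ho (ψ A) (ψ A') (by rw [(hψ A).1, (hψ A').1, hc])
    rw [(hψ A).2, (hψ A').2] at this
    exact this

end orbits

section fence

variable {F : Type*} [PartialOrder F] [Fintype F] {n : ℕ} {x : Fin n ≃ F} {up : ℕ → Prop}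

lemma lt_of_up (hx : IsFence x up) (i : ℕ) (d : ℕ) (hi : i + (d + 1) < n)
    (h : ∀ t, i ≤ t → t < i + (d + 1) → up t) :
    x ⟨i, by omega⟩ < x ⟨i + (d + 1), hi⟩ := by
  induction d with
  | zero => exact ((hx _ _).2 (Or.inl ⟨rfl, h i le_rfl (by omega)⟩)).lt
  | succ d ih =>
    have e := ih (by omega) (fun t h1 h2 => h t h1 (by omega))
    refine e.trans ((hx ⟨i + (d + 1), by omega⟩ ⟨i + (d + 1 + 1), hi⟩).2 (Or.inl ⟨by simp; omega, ?_⟩)).lt
    exact h _ (by simp) (by simp)

lemma lt_of_down (hx : IsFence x up) (i : ℕ) (d : ℕ) (hi : i + (d + 1) < n)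
    (h : ∀ t, i ≤ t → t < i + (d + 1) → ¬ up t) :
    x ⟨i + (d + 1), hi⟩ < x ⟨i, by omega⟩ := by
  induction d with
  | zero => exact ((hx _ _).2 (Or.inr ⟨rfl, h i le_rfl (by omega)⟩)).lt
  | succ d ih =>
    have e := ih (by omega) (fun t h1 h2 => h t h1 (by omega))
    refine lt_trans ((hx ⟨i + (d + 1 + 1), hi⟩ ⟨i + (d + 1), by omega⟩).2
      (Or.inr ⟨by simp; omega, ?_⟩)).lt e
    exact h _ (by simp) (by simp)

lemma of_lt (hx : IsFence x up) {a b : F} (h : a < b) :
    ((x.symm a).val < (x.symm b).val ∧ ∀ t, (x.symm a).val ≤ t → t < (x.symm b).val → up t) ∨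
    ((x.symm b).val < (x.symm a).val ∧ ∀ t, (x.symm b).val ≤ t → t < (x.symm a).val → ¬ up t) := by
  classical
  let _ : LocallyFiniteOrder F := Fintype.toLocallyFiniteOrder
  rw [lt_iff_transGen_covBy] at h
  induction h with
  | single h =>
    rename_i b
    have := (hx (x.symm a) (x.symm b)).1 (by simpa using h)
    rcases this with ⟨h1, h2⟩ | ⟨h1, h2⟩
    · left
      refine ⟨by omega, fun t h3 h4 => ?_⟩
      have : t = (x.symm a).val := by omega
      rw [this]; exact h2
    · right
      refine ⟨by omega, fun t h3 h4 => ?_⟩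
      have : t = (x.symm b).val := by omega
      rw [this]; exact h2
  | tail hh h ih =>
    rename_i b c
    have := (hx (x.symm b) (x.symm c)).1 (by simpa using h)
    rcases this with ⟨h1, h2⟩ | ⟨h1, h2⟩
    · rcases ih with ⟨h3, h4⟩ | ⟨h3, h4⟩
      · left
        refine ⟨by omega, fun t h5 h6 => ?_⟩
        by_cases h7 : t < (x.symm b).val
        · exact h4 t h5 h7
        · have : t = (x.symm b).val := by omega
          rw [this]; exact h2
      · exact absurd h2 (h4 _ le_rfl h3)
    · rcases ih with ⟨h3, h4⟩ | ⟨h3, h4⟩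
      · exact absurd (h4 (x.symm c).val (by omega) (by omega)) h2
      · right
        refine ⟨by omega, fun t h5 h6 => ?_⟩
        by_cases h7 : (x.symm b).val ≤ t
        · exact h4 t h7 h6
        · have : t = (x.symm c).val := by omega
          rw [this]; exact h2

/-- The turning points. -/
def turn (up : ℕ → Prop) (t : ℕ) : Prop := ¬ (up (t - 1) ↔ up t)

lemma const_of {i j : ℕ} (h : ∀ t, i < t → t < j → ¬ turn up t) :
    ∀ t, i ≤ t → t < j → (up t ↔ up i) := by
  intro t
  induction t with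
  | zero => intro h1 _; rw [Nat.le_zero.1 h1]
  | succ t ih =>
    intro h1 h2
    rcases Nat.lt_or_ge t i with h3 | h3
    · have : i = t + 1 := by omega
      rw [this]
    · have h4 := h (t + 1) (by omega) h2
      unfold turn at h4
      rw [not_not, Nat.add_sub_cancel] at h4
      rw [← h4]
      exact ih h3 (by omega)

lemma no_turn {i j : ℕ} (h : (∀ t, i ≤ t → t < j → up t) ∨ (∀ t, i ≤ t → t < j → ¬ up t)) :
    ∀ t, i < t → t < j → ¬ turn up t := by
  intro t h1 h2 h3
  apply h3
  rcases h with h | h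
  · exact ⟨fun _ => h t h1.le h2, fun _ => h (t - 1) (by omega) (by omega)⟩
  · exact ⟨fun e => absurd e (h (t - 1) (by omega) (by omega)), fun e => absurd e (h t h1.le h2)⟩

lemma comparable (hx : IsFence x up) {i j : ℕ} (hi : i < n) (hj : j < n) (hij : i < j)
    (h : ∀ t, i < t → t < j → ¬ turn up t) :
    x ⟨i, hi⟩ < x ⟨j, hj⟩ ∨ x ⟨j, hj⟩ < x ⟨i, hi⟩ := by
  obtain ⟨d, rfl⟩ : ∃ d, j = i + (d + 1) := ⟨j - i - 1, by omega⟩
  have hc := const_of h
  by_cases hu : up i
  · left
    exact lt_of_up hx i d hj (fun t h1 h2 => (hc t h1 h2).2 hu)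
  · right
    exact lt_of_down hx i d hj (fun t h1 h2 e => hu ((hc t h1 h2).1 e))

lemma adj_iff (hx : IsFence x up) (u v : F) : adj (fun u v : F => u < v) u v ↔
    (x.symm u).val ≠ (x.symm v).val ∧
      ∀ t, bt (x.symm u).val (x.symm v).val t → ¬ turn up t := by
  constructor
  · have key : ∀ u v : F, u < v → (x.symm u).val ≠ (x.symm v).val ∧
      ∀ t, bt (x.symm u).val (x.symm v).val t → ¬ turn up t := by
      intro u v h
      rcases of_lt hx h with ⟨h1, h2⟩ | ⟨h1, h2⟩
      · refine ⟨h1.ne, fun t ht => ?_⟩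
        rcases ht with ht | ht
        · exact no_turn (Or.inl h2) t ht.1 ht.2
        · omega
      · refine ⟨h1.ne', fun t ht => ?_⟩
        rcases ht with ht | ht
        · omega
        · exact no_turn (Or.inr h2) t ht.1 ht.2
    rintro (h | h)
    · exact key u v h
    · obtain ⟨h1, h2⟩ := key v u h
      exact ⟨h1.symm, fun t ht => h2 t (by unfold bt at *; omega)⟩
  · rintro ⟨h1, h2⟩
    rcases Nat.lt_or_gt_of_ne h1 with h3 | h3
    · have := comparable hx (x.symm u).isLt (x.symm v).isLt h3
        (fun t h4 h5 => h2 t (Or.inl ⟨h4, h5⟩))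
      simpa [adj] using this
    · have := comparable hx (x.symm v).isLt (x.symm u).isLt h3
        (fun t h4 h5 => h2 t (Or.inr ⟨h4, h5⟩))
      simpa [adj] using this.symm

end fence

/-- Let `F` be a fence and let `l`, `l'` be two orderings of its elements. A linear combination of
the indicator functions is `c`-mesic under the Coxeter element of `l` if and only if it is so
under that of `l'`, and the same holds for orbomesic. -/
theorem result {F : Type*} [PartialOrder F] [Fintype F] [DecidableEq F] {n : ℕ} (x : Fin n ≃ F)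
    (up : ℕ → Prop) (hx : IsFence x up) (l l' : List F) (hl : l.Nodup) (hl1 : ∀ a, a ∈ l)
    (hl' : l'.Nodup) (hl1' : ∀ a, a ∈ l') (lam : F → ℝ) :
    (∀ c : ℝ, Mesic (cox (fun u v : F => u < v) l) (stat lam) c ↔
      Mesic (cox (fun u v : F => u < v) l') (stat lam) c) ∧
    (Orbomesic (cox (fun u v : F => u < v) l) (stat lam) ↔
      Orbomesic (cox (fun u v : F => u < v) l') (stat lam)) := by
  have hp : l.Perm l' := (List.perm_ext_iff_of_nodup hl hl').2 fun a => by simp [hl1 a, hl1' a]
  have hE : Eqv (cox (fun u v : F => u < v) l) (cox (fun u v : F => u < v) l') := by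
    have := perm_eqv (r := fun u v : F => u < v) (fun a => lt_irrefl a)
      (pairs (fun a => (x.symm a).val) (fun a b h => x.symm.injective (Fin.ext h)) (turn up)
        (adj_iff hx)) hp [] (by simpa using hl)
    simpa using this
  obtain ⟨h1, h2⟩ := transfer hE lam
  obtain ⟨h3, h4⟩ := transfer hE.symm lam
  exact ⟨fun c => ⟨h1 c, h3 c⟩, ⟨h2, h4⟩⟩

end Pool.Agent.Results.MP_caa0a9_co.CoxeterIndependence
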